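import Pool.Agent.Helper5.QuadFinal

namespace Pool.Agent.Results.MP_cd2397_nt.RankParity

open Finset Pool.Agent.Helper5

/-- The set of partitions of `N` into exactly two part sizes, in frequency notation: the tuple
`(l1, m1, l2, m2)` stands for the partition with `m1` parts `l1` and `m2` parts `l2`, where
`l1 > l2 ≥ 1`, `m1, m2 ≥ 1` and `l1 * m1 + l2 * m2 = N` (so all four entries are at most `N`). -/
def TwoSizes (N : ℕ) : Finset (ℕ × ℕ × ℕ × ℕ) :=
  (Icc 1 N ×ˢ Icc 1 N ×ˢ Icc 1 N ×ˢ Icc 1 N).filter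
    (fun x => x.2.2.1 < x.1 ∧ x.1 * x.2.1 + x.2.2.1 * x.2.2.2 = N)

/-- Dyson's rank `l1 - m1 - m2` of `(l1, m1, l2, m2)`. -/
def rk (x : ℕ × ℕ × ℕ × ℕ) : ℤ := (x.1 : ℤ) - (x.2.1 : ℤ) - (x.2.2.2 : ℤ)

/-- The statistic `l1 + l2 - 2 * m1 - m2` of `(l1, m1, l2, m2)`. -/
def rk2 (x : ℕ × ℕ × ℕ × ℕ) : ℤ := (x.1 : ℤ) + (x.2.2.1 : ℤ) - 2 * (x.2.1 : ℤ) - (x.2.2.2 : ℤ)

/-- The number of partitions of `N` into exactly two part sizes on which the statistic `s` is
congruent to `e` modulo 2. -/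
def count (s : ℕ × ℕ × ℕ × ℕ → ℤ) (e : ℤ) (N : ℕ) : ℕ :=
  ((TwoSizes N).filter (fun x => s x ≡ e [ZMOD 2])).card

/-- The five pairs `(A, B)` of the question. -/
def S : Finset (ℕ × ℕ) := {(16, 14), (36, 30), (72, 42), (196, 70), (252, 114)}

theorem count_eq (s : ℕ × ℕ × ℕ × ℕ → ℤ) (e : ℤ) (N : ℕ) (p : ℕ → ℕ → ℕ → ℕ → Prop)
    (h : ∀ a b c d, c < a → ((s (a, b, c, d) ≡ e [ZMOD 2]) ↔ p a b c d)) :
    count s e N = cnt N (fun a b c d => c < a ∧ p a b c d) := by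
  classical
  unfold count cnt
  congr 1
  ext ⟨a, b, c, d⟩
  simp only [TwoSizes, Sol, mem_filter, mem_product]
  constructor
  · rintro ⟨⟨h1, h2, h3⟩, h4⟩
    exact ⟨⟨h1, h3⟩, h2, (h a b c d h2).1 h4⟩
  · rintro ⟨⟨h1, h3⟩, h2, h4⟩
    exact ⟨⟨h1, h2, h3⟩, (h a b c d h2).2 h4⟩

theorem rk_zero (N : ℕ) :
    count rk 0 N = cnt N (fun a b c d => c < a ∧ (a + b + d) % 2 = 0) := by
  refine count_eq rk 0 N (fun a b c d => (a + b + d) % 2 = 0) ?_
  intro a b c d _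
  simp only [rk, Int.ModEq]
  omega

theorem rk_one (N : ℕ) :
    count rk 1 N = cnt N (fun a b c d => c < a ∧ (a + b + d) % 2 = 1) := by
  refine count_eq rk 1 N (fun a b c d => (a + b + d) % 2 = 1) ?_
  intro a b c d _
  simp only [rk, Int.ModEq]
  omega

theorem rk2_zero (N : ℕ) :
    count rk2 0 N = cnt N (fun a b c d => c < a ∧ (a + c + d) % 2 = 0) := by
  refine count_eq rk2 0 N (fun a b c d => (a + c + d) % 2 = 0) ?_
  intro a b c d _
  simp only [rk2, Int.ModEq]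
  omega

theorem rk2_one (N : ℕ) :
    count rk2 1 N = cnt N (fun a b c d => c < a ∧ (a + c + d) % 2 = 1) := by
  refine count_eq rk2 1 N (fun a b c d => (a + c + d) % 2 = 1) ?_
  intro a b c d _
  simp only [rk2, Int.ModEq]
  omega

theorem sq_mod16 (x : ℕ) : (x * x) % 16 = 0 ∨ (x * x) % 16 = 1 ∨ (x * x) % 16 = 4 ∨
    (x * x) % 16 = 9 := by
  rw [Nat.mul_mod]
  have h : x % 16 < 16 := Nat.mod_lt _ (by norm_num)
  generalize x % 16 = y at h
  interval_cases y <;> simp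

theorem sq_mod9 (x : ℕ) : (x * x) % 9 = 0 ∨ (x * x) % 9 = 1 ∨ (x * x) % 9 = 4 ∨
    (x * x) % 9 = 7 := by
  rw [Nat.mul_mod]
  have h : x % 9 < 9 := Nat.mod_lt _ (by norm_num)
  generalize x % 9 = y at h
  interval_cases y <;> simp

theorem sq_mod7 (x : ℕ) : (x * x) % 7 = 0 ∨ (x * x) % 7 = 1 ∨ (x * x) % 7 = 2 ∨
    (x * x) % 7 = 4 := by
  rw [Nat.mul_mod]
  have h : x % 7 < 7 := Nat.mod_lt _ (by norm_num)
  generalize x % 7 = y at h
  interval_cases y <;> simp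

theorem sq_mod7_zero {x : ℕ} (h : (x * x) % 7 = 0) : (x * x) % 49 = 0 := by
  have h1 : 7 ∣ x * x := Nat.dvd_of_mod_eq_zero h
  have h2 : 7 ∣ x := by
    rcases (Nat.Prime.dvd_mul (by norm_num : Nat.Prime 7)).1 h1 with h2 | h2 <;> exact h2
  obtain ⟨k, rfl⟩ := h2
  have : 7 * k * (7 * k) = 49 * (k * k) := by ring
  rw [this]; omega

/-- the general statement for the moduli with a prime `p` exactly dividing `N` -/
theorem all_four {N : ℕ} (hN : N % 4 = 2) (hsq : ∀ x y : ℕ, x * x + y * y ≠ N)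
    (hF : Even (FM N)) (hQ : Even (QQ N)) :
    (4 ∣ count rk2 0 N ∧ 4 ∣ count rk2 1 N) ∧ (4 ∣ count rk 0 N ∧ 4 ∣ count rk 1 N) := by
  rw [rk_zero, rk_one, rk2_zero, rk2_one]
  exact ⟨⟨rk2_zero_dvd hN hsq, rk2_one_dvd hN hQ⟩, ⟨rk_zero_dvd hN hsq hF,
    rk_one_dvd hN hsq hF hQ⟩⟩

theorem case_three {N : ℕ} (hN : N % 4 = 2) (h9 : N % 9 = 3 ∨ N % 9 = 6)
    (hns : ∀ k : ℕ, 6 * (k * k) ≠ N) :
    (4 ∣ count rk2 0 N ∧ 4 ∣ count rk2 1 N) ∧ (4 ∣ count rk 0 N ∧ 4 ∣ count rk 1 N) := by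
  apply all_four hN
  · intro x y h
    have h1 := sq_mod9 x
    have h2 := sq_mod9 y
    omega
  · refine FM_even (p := 3) (by norm_num) (by norm_num) hN (by omega) (by omega) ?_
    intro k hk
    exact hns k (by rw [← hk])
  · exact QQ_even_three hN (by omega) (by omega) hns

theorem case_16 (n : ℕ) : 4 ∣ count rk2 0 (16 * n + 14) ∧ 4 ∣ count rk2 1 (16 * n + 14) := by
  have hN : (16 * n + 14) % 4 = 2 := by omega
  rw [rk2_zero, rk2_one]
  refine ⟨rk2_zero_dvd hN ?_, rk2_one_dvd hN ?_⟩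
  · intro x y h
    have h1 := sq_mod16 x
    have h2 := sq_mod16 y
    omega
  · rw [QQ_zero]
    · exact ⟨0, rfl⟩
    · intro a c _ _ h
      have h1 := sq_mod16 a
      have h2 := sq_mod16 c
      omega

theorem case_36 (n : ℕ) :
    (4 ∣ count rk2 0 (36 * n + 30) ∧ 4 ∣ count rk2 1 (36 * n + 30)) ∧
      (4 ∣ count rk 0 (36 * n + 30) ∧ 4 ∣ count rk 1 (36 * n + 30)) := by
  apply case_three (by omega) (by omega)
  intro k hk
  have h1 := sq_mod9 k
  omega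

theorem case_72 (n : ℕ) :
    (4 ∣ count rk2 0 (72 * n + 42) ∧ 4 ∣ count rk2 1 (72 * n + 42)) ∧
      (4 ∣ count rk 0 (72 * n + 42) ∧ 4 ∣ count rk 1 (72 * n + 42)) := by
  apply case_three (by omega) (by omega)
  intro k hk
  have h1 := sq_mod16 k
  omega

theorem case_252 (n : ℕ) :
    (4 ∣ count rk2 0 (252 * n + 114) ∧ 4 ∣ count rk2 1 (252 * n + 114)) ∧
      (4 ∣ count rk 0 (252 * n + 114) ∧ 4 ∣ count rk 1 (252 * n + 114)) := by
  apply case_three (by omega) (by omega)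
  intro k hk
  have h1 := sq_mod7 k
  omega

theorem case_196 (n : ℕ) :
    (4 ∣ count rk2 0 (196 * n + 70) ∧ 4 ∣ count rk2 1 (196 * n + 70)) ∧
      (4 ∣ count rk 0 (196 * n + 70) ∧ 4 ∣ count rk 1 (196 * n + 70)) := by
  apply all_four (by omega)
  · intro x y h
    have h1 := sq_mod7 x
    have h2 := sq_mod7 y
    have h3 : (x * x) % 7 = 0 ∧ (y * y) % 7 = 0 := by omega
    have h4 := sq_mod7_zero h3.1
    have h5 := sq_mod7_zero h3.2
    omega
  · refine FM_even (p := 7) (by norm_num) (by norm_num) (by omega) (by omega) (by omega) ?_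
    intro k hk
    have h1 := sq_mod7 k
    omega
  · rw [QQ_zero]
    · exact ⟨0, rfl⟩
    · intro a c _ _ h
      have h1 := sq_mod7 a
      have h2 := sq_mod7 c
      have h3 : (a * a) % 7 = 0 ∧ (c * c) % 7 = 0 := by omega
      have h4 := sq_mod7_zero h3.1
      have h5 := sq_mod7_zero h3.2
      omega

/-- Both parts of the question hold. -/
theorem result :
    (∀ AB ∈ S, ∀ n : ℕ,
      4 ∣ count rk2 0 (AB.1 * n + AB.2) ∧ 4 ∣ count rk2 1 (AB.1 * n + AB.2)) ∧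
    (∀ AB ∈ S \ {(16, 14)}, ∀ n : ℕ,
      4 ∣ count rk 0 (AB.1 * n + AB.2) ∧ 4 ∣ count rk 1 (AB.1 * n + AB.2)) := by
  constructor
  · intro AB hAB n
    simp only [S, mem_insert, mem_singleton] at hAB
    rcases hAB with rfl | rfl | rfl | rfl | rfl
    · exact case_16 n
    · exact (case_36 n).1
    · exact (case_72 n).1
    · exact (case_196 n).1
    · exact (case_252 n).1
  · intro AB hAB n
    simp only [S, mem_sdiff, mem_insert, mem_singleton] at hAB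
    obtain ⟨hAB, hne⟩ := hAB
    rcases hAB with rfl | rfl | rfl | rfl | rfl
    · exact absurd rfl hne
    · exact (case_36 n).2
    · exact (case_72 n).2
    · exact (case_196 n).2
    · exact (case_252 n).2

end Pool.Agent.Results.MP_cd2397_nt.RankParity
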